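import Mathlib

/-!
# Mills numbers and cubic Pisot numbers (MP_2c63aa_nt): definitions and module statements
-/

set_option autoImplicit false

open Polynomial

namespace Pool.Agent.T6.H51.MI

/-- the power sums of the roots of `X ^ 3 - a X ^ 2 + b X - c` -/
def S (a b c : ℤ) : ℕ → ℤ
  | 0 => 3
  | 1 => a
  | 2 => a ^ 2 - 2 * b
  | n + 3 => a * S a b c (n + 2) - b * S a b c (n + 1) + c * S a b c n

/-- `a, b, c` are the elementary symmetric functions of `x, y, z` -/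
def Rts (a b c : ℤ) (x y z : ℂ) : Prop :=
  (a : ℂ) = x + y + z ∧ (b : ℂ) = x * y + y * z + z * x ∧ (c : ℂ) = x * y * z

/-- MOD: power sums and congruences modulo 2 and 9 -/
def StmMOD : Prop := ∀ (a b c : ℤ) (x y z : ℂ), Rts a b c x y z →
  (∀ n : ℕ, (S a b c n : ℂ) = x ^ n + y ^ n + z ^ n) ∧
  (∀ k : ℕ, 1 ≤ k → (2 : ℤ) ∣ S a b c (3 ^ (k + 2)) - S a b c (3 ^ k)) ∧
  (∀ k : ℕ, 2 ≤ k → (9 : ℤ) ∣ S a b c (3 ^ (k + 1)) - S a b c (3 ^ k))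

/-- GLP: periodicity modulo a prime (order of `GL (Fin 3) (ZMod p)`) -/
def StmGLP : Prop := ∀ (a b c : ℤ) (p : ℕ), p.Prime → ¬ (p : ℤ) ∣ c → p ≠ 3 → p % 9 ≠ 1 →
  p % 9 ≠ 8 → ∀ N : ℕ, 4 ≤ N →
  ∃ T : ℕ, 1 ≤ T ∧ (p : ℤ) ∣ S a b c (3 ^ (N + 2 * T)) - S a b c (3 ^ N)

/-- SGN: the signs of the real parts are not eventually constant -/
def StmSGN : Prop := ∀ (a b c : ℤ) (α : ℝ) (β : ℂ), 1 < α → β.im ≠ 0 → ‖β‖ < 1 →
  Rts a b c (α : ℂ) β ((starRingEnd ℂ) β) → ∀ K : ℕ,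
  ¬ (∀ k, K ≤ k → 0 < (β ^ 3 ^ k).re) ∧ ¬ (∀ k, K ≤ k → (β ^ 3 ^ k).re ≤ 0)

/-- ALG: the roots of a monic cubic polynomial -/
def StmALG : Prop := ∀ P : ℤ[X], P.Monic → P.natDegree = 3 → ∀ (α : ℝ) (β : ℂ), β.im ≠ 0 →
  aeval α P = 0 → aeval β P = 0 → ∃ a b c : ℤ, Rts a b c (α : ℂ) β ((starRingEnd ℂ) β)

end Pool.Agent.T6.H51.MI
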