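import Mathlib
import Pool.Agent.T6.H51.MI.Defs

/-!
# Mills numbers and cubic Pisot numbers: the assembly
-/

set_option autoImplicit false

open Polynomial

namespace Pool.Agent.T6.H51.MI

theorem asm (hM : StmMOD) (hG : StmGLP) (hS : StmSGN) {A : ℝ} (hA0 : 0 < A)
    (hp : ∀ n : ℕ, 1 ≤ n → Nat.Prime ⌊A ^ 3 ^ n⌋₊) (m : ℕ) (a b c : ℤ) (β : ℂ)
    (hR : Rts a b c ((A ^ 3 ^ m : ℝ) : ℂ) β ((starRingEnd ℂ) β))
    (hi : β.im ≠ 0) (hn : ‖β‖ < 1) : False := by
  classical
  have hA1 : 1 < A := by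
    by_contra hle
    push Not at hle
    have h1 : A ^ 3 ^ 1 ≤ 1 := pow_le_one₀ hA0.le hle
    have h2 : ⌊A ^ 3 ^ 1⌋₊ ≤ 1 := by
      have := Nat.floor_mono h1
      simpa using this
    have h4 := (hp 1 le_rfl).two_le
    omega
  set α : ℝ := A ^ 3 ^ m with hα
  have hα1 : 1 < α := one_lt_pow₀ hA1 (by positivity)
  obtain ⟨hs, hpar, hnine⟩ := hM a b c α β _ hR
  obtain ⟨p, hpdef⟩ : ∃ p : ℕ → ℕ, ∀ k, p k = ⌊α ^ 3 ^ k⌋₊ := ⟨_, fun _ => rfl⟩
  have hprime : ∀ k, 1 ≤ k → (p k).Prime := by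
    intro k hk
    have h1 : α ^ 3 ^ k = A ^ 3 ^ (m + k) := by
      rw [hα, ← pow_mul, ← pow_add]
    rw [hpdef, h1]
    exact hp _ (by omega)
  have hpos : ∀ k, 0 < α ^ 3 ^ k := fun k => by positivity
  have hple : ∀ k, (p k : ℝ) ≤ α ^ 3 ^ k := by
    intro k
    rw [hpdef]
    exact Nat.floor_le (hpos k).le
  have hplt : ∀ k, α ^ 3 ^ k < (p k : ℝ) + 1 := by
    intro k
    rw [hpdef]
    exact Nat.lt_floor_add_one _
  have hsr : ∀ n : ℕ, (S a b c n : ℝ) = α ^ n + 2 * (β ^ n).re := by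
    intro n
    have h1 := congrArg Complex.re (hs n)
    rw [Complex.intCast_re, Complex.add_re, Complex.add_re, ← map_pow, Complex.conj_re,
      ← Complex.ofReal_pow, Complex.ofReal_re] at h1
    rw [h1]
    ring
  have hc0 : c ≠ 0 := by
    rintro rfl
    have h1 := hR.2.2
    rw [Int.cast_zero] at h1
    have hb0 : β ≠ 0 := by
      rintro rfl
      exact hi rfl
    have ha0 : (α : ℂ) ≠ 0 := by
      exact_mod_cast (by linarith : α ≠ 0)
    have hb1 : (starRingEnd ℂ) β ≠ 0 := by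
      rw [Ne, map_eq_zero]
      exact hb0
    exact mul_ne_zero (mul_ne_zero ha0 hb0) hb1 h1.symm
  -- large k
  obtain ⟨K0, hK0⟩ : ∃ K0 : ℕ, ∀ n, K0 ≤ n → ‖β‖ ^ n < 1 / 2 := by
    have h1 := tendsto_pow_atTop_nhds_zero_of_lt_one (norm_nonneg β) hn
    have h2 := h1.eventually (gt_mem_nhds (by norm_num : (0 : ℝ) < 1 / 2))
    rw [Filter.eventually_atTop] at h2
    exact h2
  obtain ⟨K1, hK1⟩ : ∃ K1 : ℕ, ∀ n, K1 ≤ n → (c.natAbs : ℝ) + 20 < α ^ n := by
    have h1 := tendsto_pow_atTop_atTop_of_one_lt hα1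
    have h2 := h1.eventually (Filter.eventually_gt_atTop ((c.natAbs : ℝ) + 20))
    rw [Filter.eventually_atTop] at h2
    exact h2
  set K := max (max K0 K1) 4 with hK
  have hK0' : K0 ≤ K := le_trans (le_max_left _ _) (le_max_left _ _)
  have hK1' : K1 ≤ K := le_trans (le_max_right _ _) (le_max_left _ _)
  have hK4 : 4 ≤ K := le_max_right _ _
  have hpow : ∀ k : ℕ, k ≤ 3 ^ k := fun k => (Nat.lt_pow_self (by norm_num)).le
  have hbig : ∀ k, K ≤ k → c.natAbs + 19 < p k := by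
    intro k hk
    have h1 := hK1 (3 ^ k) (le_trans hK1' (le_trans hk (hpow k)))
    have h2 := hplt k
    have h4 : ((c.natAbs + 19 : ℕ) : ℝ) < (p k : ℝ) := by
      push_cast
      linarith
    exact_mod_cast h4
  -- the value of S
  have hval : ∀ k, K ≤ k → S a b c (3 ^ k) = (p k : ℤ) + (if 0 < (β ^ 3 ^ k).re then 1 else 0) := by
    intro k hk
    have h1 : ‖β‖ ^ 3 ^ k < 1 / 2 := hK0 _ (le_trans hK0' (le_trans hk (hpow k)))
    have h2 : |(β ^ 3 ^ k).re| < 1 / 2 := by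
      refine lt_of_le_of_lt (Complex.abs_re_le_norm _) ?_
      rwa [norm_pow]
    rw [abs_lt] at h2
    have h4 := hsr (3 ^ k)
    have h5 := hple k
    have h6 := hplt k
    split_ifs with h7
    · have h8 : ((p k : ℤ) : ℝ) < (S a b c (3 ^ k) : ℝ) := by
        rw [h4]
        push_cast
        linarith
      have h9 : (S a b c (3 ^ k) : ℝ) < (((p k : ℤ) + 2 : ℤ) : ℝ) := by
        rw [h4]
        push_cast
        linarith
      have h10 : (p k : ℤ) < S a b c (3 ^ k) := by exact_mod_cast h8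
      have h11 : S a b c (3 ^ k) < (p k : ℤ) + 2 := by exact_mod_cast h9
      omega
    · push Not at h7
      have h8 : (((p k : ℤ) - 1 : ℤ) : ℝ) < (S a b c (3 ^ k) : ℝ) := by
        rw [h4]
        push_cast
        linarith
      have h9 : (S a b c (3 ^ k) : ℝ) < (((p k : ℤ) + 1 : ℤ) : ℝ) := by
        rw [h4]
        push_cast
        linarith
      have h10 : (p k : ℤ) - 1 < S a b c (3 ^ k) := by exact_mod_cast h8
      have h11 : S a b c (3 ^ k) < (p k : ℤ) + 1 := by exact_mod_cast h9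
      omega
  set e : ℕ → ℤ := fun k => if 0 < (β ^ 3 ^ k).re then 1 else 0 with he
  have he01 : ∀ k, e k = 0 ∨ e k = 1 := by
    intro k
    by_cases h : 0 < (β ^ 3 ^ k).re
    · right
      simp only [he, if_pos h]
    · left
      simp only [he, if_neg h]
  have hval' : ∀ k, K ≤ k → S a b c (3 ^ k) = (p k : ℤ) + e k := hval
  have hodd : ∀ k, K ≤ k → (p k : ℤ) % 2 = 1 := by
    intro k hk
    have h1 := hbig k hk
    rcases (hprime k (by omega)).eq_two_or_odd with h | h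
    · omega
    · omega
  have he2 : ∀ k, K ≤ k → e (k + 2) = e k := by
    intro k hk
    have h1 := hpar k (by omega)
    rw [hval' k hk, hval' (k + 2) (by omega)] at h1
    have h2 := hodd k hk
    have h4 := hodd (k + 2) (by omega)
    rcases he01 k with h5 | h5 <;> rcases he01 (k + 2) with h6 | h6 <;> rw [h5, h6] at h1 ⊢ <;> omega
  have he2j : ∀ k, K ≤ k → ∀ j : ℕ, e (k + 2 * j) = e k := by
    intro k hk j
    induction j with
    | zero => rfl
    | succ j ih =>
      have h1 := he2 (k + 2 * j) (by omega)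
      rw [ih] at h1
      have h2 : k + 2 * (j + 1) = k + 2 * j + 2 := by ring
      rw [h2, h1]
  have hmod9 : ∀ N, K ≤ N → p N % 9 = 1 ∨ p N % 9 = 8 := by
    intro N hN
    by_contra hcon
    push Not at hcon
    have hb := hbig N hN
    have hpN := hprime N (by omega)
    have hnc : ¬ ((p N : ℕ) : ℤ) ∣ c := by
      intro hd
      have h1 := Int.natAbs_dvd_natAbs.2 hd
      rw [Int.natAbs_natCast] at h1
      have h2 := Nat.le_of_dvd (Int.natAbs_pos.2 hc0) h1
      omega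
    obtain ⟨T, hT, hdvd⟩ := hG a b c (p N) hpN hnc (by omega) hcon.1 hcon.2 N (by omega)
    rw [hval' N hN, hval' (N + 2 * T) (by omega), he2j N hN T] at hdvd
    have h1 : ((p N : ℕ) : ℤ) ∣ ((p (N + 2 * T) : ℕ) : ℤ) := by
      have h2 : ((p (N + 2 * T) : ℕ) : ℤ) =
          ((p (N + 2 * T) : ℤ) + e N - ((p N : ℤ) + e N)) + (p N : ℤ) := by ring
      rw [h2]
      exact dvd_add hdvd dvd_rfl
    have h2 : p N ∣ p (N + 2 * T) := Int.natCast_dvd_natCast.1 h1
    have hpT := hprime (N + 2 * T) (by omega)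
    have h4 : p N = p (N + 2 * T) := (Nat.prime_dvd_prime_iff_eq hpN hpT).1 h2
    have h5 := hplt (N + 2 * T)
    rw [← h4] at h5
    have h6 : α ^ 3 ^ (N + 2 * T) = (α ^ 3 ^ N) ^ 3 ^ (2 * T) := by
      rw [pow_add 3 N (2 * T), pow_mul α]
    have h7 : (1 : ℝ) ≤ α ^ 3 ^ N := one_le_pow₀ hα1.le
    have h8 : (α ^ 3 ^ N) ^ 2 ≤ (α ^ 3 ^ N) ^ 3 ^ (2 * T) := by
      apply pow_le_pow_right₀ h7
      have : 2 * T ≤ 3 ^ (2 * T) := hpow _
      omega
    have h9 := hple N
    have h10 : (20 : ℝ) ≤ (p N : ℝ) := by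
      have : 20 ≤ p N := by omega
      exact_mod_cast this
    rw [h6] at h5
    nlinarith
  have he1 : ∀ k, K ≤ k → e (k + 1) = e k := by
    intro k hk
    have h1 := hnine k (by omega)
    rw [hval' k hk, hval' (k + 1) (by omega)] at h1
    have h2 := hmod9 k hk
    have h4 := hmod9 (k + 1) (by omega)
    rcases he01 k with h5 | h5 <;> rcases he01 (k + 1) with h6 | h6 <;> rw [h5, h6] at h1 ⊢ <;>
      omega
  have hcst : ∀ j : ℕ, e (K + j) = e K := by
    intro j
    induction j with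
    | zero => rfl
    | succ j ih =>
      rw [← ih, ← he1 (K + j) (by omega)]
      rfl
  obtain ⟨hs1, hs2⟩ := hS a b c α β hα1 hi hn hR K
  by_cases h : 0 < (β ^ 3 ^ K).re
  · apply hs1
    intro k hk
    obtain ⟨j, rfl⟩ := Nat.exists_eq_add_of_le hk
    have h1 := hcst j
    by_contra h2
    simp only [he, if_pos h, if_neg h2] at h1
    omega
  · apply hs2
    intro k hk
    obtain ⟨j, rfl⟩ := Nat.exists_eq_add_of_le hk
    have h1 := hcst j
    by_contra h2
    push Not at h2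
    simp only [he, if_pos h2, if_neg h] at h1
    omega

end Pool.Agent.T6.H51.MI
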