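import Pool.Agent.T6.H51.MI.Defs

/-!
# Mills numbers: periodicity modulo a prime (helper38)
-/

set_option autoImplicit false

namespace Pool.Agent.T6.H51.MI

namespace GLP

lemma key243 : ∀ r : ZMod 243, (r.val % 9 = 2 ∨ r.val % 9 = 4 ∨ r.val % 9 = 5 ∨ r.val % 9 = 7) →
    (r ^ 3 - 1) * (r ^ 3 - r) * (r ^ 3 - r ^ 2) ≠ 0 := by
  decide +kernel

lemma mod9 {p : ℕ} (hp : p.Prime) (h3 : p ≠ 3) (h1 : p % 9 ≠ 1) (h8 : p % 9 ≠ 8) :
    p % 9 = 2 ∨ p % 9 = 4 ∨ p % 9 = 5 ∨ p % 9 = 7 := by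
  have h : ¬ 3 ∣ p := fun h => h3 ((Nat.prime_dvd_prime_iff_eq Nat.prime_three hp).1 h).symm
  omega

lemma not_dvd {p : ℕ} (hp : p.Prime) (h3 : p ≠ 3) (h1 : p % 9 ≠ 1) (h8 : p % 9 ≠ 8) :
    ¬ 3 ^ 5 ∣ (p ^ 3 - 1) * (p ^ 3 - p) * (p ^ 3 - p ^ 2) := by
  intro hd
  have h9 := mod9 hp h3 h1 h8
  have hval : ((p : ZMod 243)).val = p % 243 := ZMod.val_natCast 243 p
  refine key243 (p : ZMod 243) ?_ ?_
  · rw [hval]
    omega
  · have e : (((p ^ 3 - 1) * (p ^ 3 - p) * (p ^ 3 - p ^ 2) : ℕ) : ZMod 243) = 0 := by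
      rw [ZMod.natCast_eq_zero_iff]
      exact hd
    have hp1 : 1 ≤ p := hp.one_lt.le
    have a1 : 1 ≤ p ^ 3 := Nat.one_le_pow _ _ hp1
    have a2 : p ≤ p ^ 3 := Nat.le_self_pow (by norm_num) p
    have a3 : p ^ 2 ≤ p ^ 3 := Nat.pow_le_pow_right hp1 (by norm_num)
    rw [Nat.cast_mul, Nat.cast_mul, Nat.cast_sub a1, Nat.cast_sub a2, Nat.cast_sub a3] at e
    push_cast at e
    exact e

/-- the companion matrix -/
def A (p : ℕ) (a b c : ℤ) : Matrix (Fin 3) (Fin 3) (ZMod p) :=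
  !![0, 1, 0; 0, 0, 1; (c : ZMod p), -(b : ZMod p), (a : ZMod p)]

/-- three consecutive power sums -/
def v (p : ℕ) (a b c : ℤ) (n : ℕ) : Fin 3 → ZMod p :=
  ![(S a b c n : ZMod p), (S a b c (n + 1) : ZMod p), (S a b c (n + 2) : ZMod p)]

lemma step (p : ℕ) (a b c : ℤ) (n : ℕ) : (A p a b c).mulVec (v p a b c n) = v p a b c (n + 1) := by
  have hS : S a b c (n + 3) = a * S a b c (n + 2) - b * S a b c (n + 1) + c * S a b c n := rfl
  ext i
  fin_cases i
  · simp [A, v, Matrix.mulVec, dotProduct, Fin.sum_univ_three]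
  · simp [A, v, Matrix.mulVec, dotProduct, Fin.sum_univ_three]
  · simp [A, v, Matrix.mulVec, dotProduct, Fin.sum_univ_three]
    rw [show n + 1 + 2 = n + 3 from rfl, hS]
    push_cast
    ring

lemma steps (p : ℕ) (a b c : ℤ) (n k : ℕ) :
    ((A p a b c) ^ k).mulVec (v p a b c n) = v p a b c (n + k) := by
  induction k with
  | zero => simp
  | succ k ih =>
    rw [pow_succ', ← Matrix.mulVec_mulVec, ih, step]
    rfl

end GLP

open GLP in
theorem glp : StmGLP := by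
  intro a b c p hp hc h3 h1 h8 N hN
  haveI : Fact p.Prime := ⟨hp⟩
  set M : ℕ := (p ^ 3 - 1) * (p ^ 3 - p) * (p ^ 3 - p ^ 2) with hM
  have hcard : Nat.card (Matrix.GeneralLinearGroup (Fin 3) (ZMod p)) = M := by
    rw [Matrix.card_GL_field, Fin.prod_univ_three, ZMod.card]
    simp [hM]
  have hM0 : M ≠ 0 := by
    rw [← hcard]
    exact Nat.card_pos.ne'
  have hnd : ¬ 3 ^ 5 ∣ M := not_dvd hp h3 h1 h8
  have hfac : M.factorization 3 ≤ 4 := by
    by_contra h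
    push Not at h
    exact hnd ((Nat.Prime.pow_dvd_iff_le_factorization Nat.prime_three hM0).2 h)
  set t : ℕ := M / 3 ^ M.factorization 3 with ht
  have hMt : 3 ^ M.factorization 3 * t = M := Nat.ordProj_mul_ordCompl_eq_self M 3
  have hcop : Nat.Coprime 3 t := Nat.coprime_ordCompl Nat.prime_three hM0
  have ht0 : 0 < t := by
    rcases Nat.eq_zero_or_pos t with h | h
    · rw [h, mul_zero] at hMt
      exact absurd hMt.symm hM0
    · exact h
  have hT : 1 ≤ Nat.totient t := Nat.totient_pos.2 ht0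
  refine ⟨Nat.totient t, hT, ?_⟩
  -- the divisibility of the difference of the exponents
  have hpow : 3 ^ Nat.totient t ≡ 1 [MOD t] := Nat.ModEq.pow_totient hcop
  have hpow2 : 3 ^ (2 * Nat.totient t) ≡ 1 [MOD t] := by
    rw [mul_comm, pow_mul]
    simpa using hpow.pow 2
  have hle : 1 ≤ 3 ^ (2 * Nat.totient t) := Nat.one_le_pow _ _ (by norm_num)
  have hdt : t ∣ 3 ^ (2 * Nat.totient t) - 1 := (Nat.modEq_iff_dvd' hle).1 hpow2.symm
  have hd3 : 3 ^ M.factorization 3 ∣ 3 ^ N := pow_dvd_pow 3 (hfac.trans hN)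
  have hMd : M ∣ 3 ^ N * (3 ^ (2 * Nat.totient t) - 1) := by
    rw [← hMt]
    exact mul_dvd_mul hd3 hdt
  obtain ⟨e, he⟩ := hMd
  have hexp : 3 ^ (N + 2 * Nat.totient t) = 3 ^ N + M * e := by
    rw [← he, pow_add, Nat.mul_sub, mul_one]
    have : 3 ^ N ≤ 3 ^ N * 3 ^ (2 * Nat.totient t) := Nat.le_mul_of_pos_right _ (by omega)
    omega
  -- the matrix
  have hdet : (A p a b c).det ≠ 0 := by
    have h : (A p a b c).det = (c : ZMod p) := by
      rw [Matrix.det_fin_three]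
      simp [A]
    rw [h]
    intro h0
    exact hc ((ZMod.intCast_zmod_eq_zero_iff_dvd c p).1 h0)
  have hAM : (A p a b c) ^ M = 1 := by
    have h := pow_card_eq_one' (x := Matrix.GeneralLinearGroup.mkOfDetNeZero (A p a b c) hdet)
    rw [hcard] at h
    have h2 := congrArg (fun g : Matrix.GeneralLinearGroup (Fin 3) (ZMod p) =>
      (g : Matrix (Fin 3) (Fin 3) (ZMod p))) h
    simpa using h2
  have hv : v p a b c (3 ^ N + M * e) = v p a b c (3 ^ N) := by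
    rw [← steps p a b c (3 ^ N) (M * e), pow_mul, hAM, one_pow, Matrix.one_mulVec]
  have h0 := congrFun hv 0
  simp only [v, Matrix.cons_val_zero] at h0
  rw [hexp]
  have h5 : ((S a b c (3 ^ N + M * e) - S a b c (3 ^ N) : ℤ) : ZMod p) = 0 := by
    push_cast
    rw [h0, sub_self]
  exact (ZMod.intCast_zmod_eq_zero_iff_dvd _ p).1 h5

end Pool.Agent.T6.H51.MI
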