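import Pool.Agent.T6.H51.MI.Defs

/-!
# Power sums and congruences modulo 2 and 9 (module MOD)
-/

set_option autoImplicit false

namespace Pool.Agent.T6.H51.MI

namespace ModAux

/-- the elementary symmetric functions of the cubes, in terms of those of the numbers -/
def F {R : Type*} [CommRing R] (v : R × R × R) : R × R × R :=
  (v.1 ^ 3 - 3 * v.1 * v.2.1 + 3 * v.2.2, v.2.1 ^ 3 - 3 * v.1 * v.2.1 * v.2.2 + 3 * v.2.2 ^ 2,
    v.2.2 ^ 3)

/-- iterate of `F` over the integers -/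
def E (a b c : ℤ) : ℕ → ℤ × ℤ × ℤ
  | 0 => (a, b, c)
  | k + 1 => F (E a b c k)

/-- reduction modulo `m` -/
def red (m : ℕ) (v : ℤ × ℤ × ℤ) : ZMod m × ZMod m × ZMod m := (v.1, v.2.1, v.2.2)

lemma red_F (m : ℕ) (v : ℤ × ℤ × ℤ) : red m (F v) = F (red m v) := by
  simp [red, F]

lemma S_pow (a b c : ℤ) (x y z : ℂ) (h : Rts a b c x y z) :
    ∀ n : ℕ, (S a b c n : ℂ) = x ^ n + y ^ n + z ^ n := by
  obtain ⟨ha, hb, hc⟩ := h
  intro n
  induction n using Nat.strong_induction_on with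
  | _ n ih =>
    match n, ih with
    | 0, _ => simp [S]; norm_num
    | 1, _ => simp [S, ha]
    | 2, _ =>
      simp only [S]
      push_cast
      rw [ha, hb]
      ring
    | n + 3, ih =>
      have h2 := ih (n + 2) (by omega)
      have h1 := ih (n + 1) (by omega)
      have h0 := ih n (by omega)
      simp only [S]
      push_cast
      rw [h2, h1, h0, ha, hb, hc]
      ring

lemma E_val (a b c : ℤ) (x y z : ℂ) (h : Rts a b c x y z) (k : ℕ) :
    ((E a b c k).1 : ℂ) = x ^ 3 ^ k + y ^ 3 ^ k + z ^ 3 ^ k ∧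
    ((E a b c k).2.1 : ℂ) = x ^ 3 ^ k * y ^ 3 ^ k + y ^ 3 ^ k * z ^ 3 ^ k + z ^ 3 ^ k * x ^ 3 ^ k ∧
    ((E a b c k).2.2 : ℂ) = x ^ 3 ^ k * y ^ 3 ^ k * z ^ 3 ^ k := by
  obtain ⟨ha, hb, hc⟩ := h
  induction k with
  | zero => simp [E, ha, hb, hc]
  | succ k ih =>
    obtain ⟨h1, h2, h3⟩ := ih
    have ex : ∀ w : ℂ, w ^ 3 ^ (k + 1) = (w ^ 3 ^ k) ^ 3 := by
      intro w; rw [← pow_mul, pow_succ]
    simp only [ex]
    generalize x ^ 3 ^ k = X at *
    generalize y ^ 3 ^ k = Y at *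
    generalize z ^ 3 ^ k = Z at *
    simp only [E, F]
    push_cast
    rw [h1, h2, h3]
    refine ⟨by ring, by ring, by ring⟩

lemma E_S (a b c : ℤ) (x y z : ℂ) (h : Rts a b c x y z) (k : ℕ) :
    S a b c (3 ^ k) = (E a b c k).1 := by
  have h1 := S_pow a b c x y z h (3 ^ k)
  have h2 := (E_val a b c x y z h k).1
  have : ((S a b c (3 ^ k) : ℤ) : ℂ) = ((E a b c k).1 : ℂ) := by rw [h1, h2]
  exact_mod_cast this

lemma mod2 : ∀ u v w : ZMod 2,
    (F (F (F ((u, v, w) : ZMod 2 × ZMod 2 × ZMod 2)))).1 = (F ((u, v, w) : ZMod 2 × ZMod 2 × ZMod 2)).1 := by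
  decide

lemma mod9 : ∀ u v w : ZMod 9,
    (F (F (F ((u, v, w) : ZMod 9 × ZMod 9 × ZMod 9)))).1 =
      (F (F ((u, v, w) : ZMod 9 × ZMod 9 × ZMod 9))).1 := by
  decide +kernel

lemma cong {m : ℕ} {s t : ℤ} (h : (s : ZMod m) = (t : ZMod m)) : (m : ℤ) ∣ s - t := by
  have h0 : ((s - t : ℤ) : ZMod m) = 0 := by push_cast; rw [h]; ring
  exact (ZMod.intCast_zmod_eq_zero_iff_dvd _ _).1 h0

end ModAux

open ModAux in
/-- **MOD** -/
theorem mod : StmMOD := by
  intro a b c x y z h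
  refine ⟨S_pow a b c x y z h, ?_, ?_⟩
  · intro k hk
    obtain ⟨j, rfl⟩ := Nat.exists_eq_add_of_le' hk
    rw [E_S a b c x y z h, E_S a b c x y z h]
    have e : ((E a b c (j + 1 + 2)).1 : ZMod 2) = ((E a b c (j + 1)).1 : ZMod 2) := by
      have h1 : (red 2 (E a b c (j + 1 + 2))).1 = (red 2 (E a b c (j + 1))).1 := by
        change (red 2 (F (F (F (E a b c j))))).1 = (red 2 (F (E a b c j))).1
        rw [red_F, red_F, red_F]
        exact mod2 _ _ _
      exact h1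
    exact_mod_cast cong e
  · intro k hk
    obtain ⟨j, rfl⟩ := Nat.exists_eq_add_of_le' hk
    rw [E_S a b c x y z h, E_S a b c x y z h]
    have e : ((E a b c (j + 2 + 1)).1 : ZMod 9) = ((E a b c (j + 2)).1 : ZMod 9) := by
      have h1 : (red 9 (E a b c (j + 2 + 1))).1 = (red 9 (E a b c (j + 2))).1 := by
        change (red 9 (F (F (F (E a b c j))))).1 = (red 9 (F (F (E a b c j)))).1
        rw [red_F, red_F, red_F]
        exact mod9 _ _ _
      exact h1
    exact_mod_cast cong e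

end Pool.Agent.T6.H51.MI

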