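import Mathlib
import Pool.Agent.T6.H51.MI.Defs
import Pool.Agent.T6.H51.MI.GLP
import Pool.Agent.T6.H51.MI.MOD

/-!
# Mills numbers: periodicity modulo a prime, general form, and 3-adic convergence of traces
-/

set_option autoImplicit false

namespace Pool.Agent.T6.H51.MI

open GLP in
theorem glp_core (a b c : ℤ) (p : ℕ) (hp : p.Prime) (hc : ¬ (p : ℤ) ∣ c) (N : ℕ)
    (hfac : ((p ^ 3 - 1) * (p ^ 3 - p) * (p ^ 3 - p ^ 2)).factorization 3 ≤ N) :
    ∃ T : ℕ, 1 ≤ T ∧ (p : ℤ) ∣ S a b c (3 ^ (N + 2 * T)) - S a b c (3 ^ N) := by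
  have : Fact p.Prime := ⟨hp⟩
  set M : ℕ := (p ^ 3 - 1) * (p ^ 3 - p) * (p ^ 3 - p ^ 2) with hM
  have hcard : Nat.card (Matrix.GeneralLinearGroup (Fin 3) (ZMod p)) = M := by
    rw [Matrix.card_GL_field, Fin.prod_univ_three, ZMod.card]
    simp [hM]
  have hM0 : M ≠ 0 := by
    rw [← hcard]
    exact Nat.card_pos.ne'
  set t : ℕ := M / 3 ^ M.factorization 3 with ht
  have hMt : 3 ^ M.factorization 3 * t = M := Nat.ordProj_mul_ordCompl_eq_self M 3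
  have hcop : Nat.Coprime 3 t := Nat.coprime_ordCompl Nat.prime_three hM0
  have ht0 : 0 < t := by
    rcases Nat.eq_zero_or_pos t with h | h
    · rw [h, mul_zero] at hMt
      exact absurd hMt.symm hM0
    · exact h
  have hT : 1 ≤ Nat.totient t := Nat.totient_pos.2 ht0
  refine ⟨Nat.totient t, hT, ?_⟩
  have hpow : 3 ^ Nat.totient t ≡ 1 [MOD t] := Nat.ModEq.pow_totient hcop
  have hpow2 : 3 ^ (2 * Nat.totient t) ≡ 1 [MOD t] := by
    rw [mul_comm, pow_mul]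
    simpa using hpow.pow 2
  have hle : 1 ≤ 3 ^ (2 * Nat.totient t) := Nat.one_le_pow _ _ (by norm_num)
  have hdt : t ∣ 3 ^ (2 * Nat.totient t) - 1 := (Nat.modEq_iff_dvd' hle).1 hpow2.symm
  have hd3 : 3 ^ M.factorization 3 ∣ 3 ^ N := pow_dvd_pow 3 hfac
  have hMd : M ∣ 3 ^ N * (3 ^ (2 * Nat.totient t) - 1) := by
    rw [← hMt]
    exact mul_dvd_mul hd3 hdt
  obtain ⟨e, he⟩ := hMd
  have hexp : 3 ^ (N + 2 * Nat.totient t) = 3 ^ N + M * e := by
    rw [← he, pow_add, Nat.mul_sub, mul_one]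
    have : 3 ^ N ≤ 3 ^ N * 3 ^ (2 * Nat.totient t) := Nat.le_mul_of_pos_right _ (by omega)
    omega
  have hdet : (A p a b c).det ≠ 0 := by
    have h : (A p a b c).det = (c : ZMod p) := by
      rw [Matrix.det_fin_three]
      simp [A]
    rw [h]
    intro h0
    exact hc ((ZMod.intCast_zmod_eq_zero_iff_dvd c p).1 h0)
  have hAM : (A p a b c) ^ M = 1 := by
    have h := pow_card_eq_one' (x := Matrix.GeneralLinearGroup.mkOfDetNeZero (A p a b c) hdet)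
    rw [hcard] at h
    have h2 := congrArg (fun g : Matrix.GeneralLinearGroup (Fin 3) (ZMod p) =>
      (g : Matrix (Fin 3) (Fin 3) (ZMod p))) h
    simpa using h2
  have hv : v p a b c (3 ^ N + M * e) = v p a b c (3 ^ N) := by
    rw [← steps p a b c (3 ^ N) (M * e), pow_mul, hAM, one_pow, Matrix.one_mulVec]
  have h0 := congrFun hv 0
  simp only [v, Matrix.cons_val_zero] at h0
  rw [hexp]
  have h5 : ((S a b c (3 ^ N + M * e) - S a b c (3 ^ N) : ℤ) : ZMod p) = 0 := by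
    push_cast
    rw [h0, sub_self]
  exact (ZMod.intCast_zmod_eq_zero_iff_dvd _ p).1 h5

theorem fac_bound {p : ℕ} (hp : p.Prime) (h3 : p ≠ 3) (j : ℕ)
    (hj : ¬ 3 ^ j ∣ (p - 1) * (p + 1)) :
    ((p ^ 3 - 1) * (p ^ 3 - p) * (p ^ 3 - p ^ 2)).factorization 3 ≤ 3 * j := by
  obtain ⟨q, rfl⟩ : ∃ q, p = q + 1 := ⟨p - 1, by have := hp.one_lt; omega⟩
  have hq0 : q ≠ 0 := by
    have := hp.one_lt
    omega
  have e1 : (q + 1) ^ 3 - 1 = q * (q ^ 2 + 3 * q + 3) := by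
    have : (q + 1) ^ 3 = q * (q ^ 2 + 3 * q + 3) + 1 := by ring
    omega
  have e2 : (q + 1) ^ 3 - (q + 1) = (q + 1) * (q * (q + 2)) := by
    have : (q + 1) ^ 3 = (q + 1) * (q * (q + 2)) + (q + 1) := by ring
    omega
  have e3 : (q + 1) ^ 3 - (q + 1) ^ 2 = (q + 1) ^ 2 * q := by
    have : (q + 1) ^ 3 = (q + 1) ^ 2 * q + (q + 1) ^ 2 := by ring
    omega
  have h31 : ¬ 3 ∣ (q + 1) := fun h =>
    h3 ((Nat.prime_dvd_prime_iff_eq Nat.prime_three hp).1 h).symm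
  have f1 : (q + 1).factorization 3 = 0 := Nat.factorization_eq_zero_of_not_dvd h31
  have f2 : (q ^ 2 + 3 * q + 3).factorization 3 ≤ 1 := by
    by_contra h
    push Not at h
    have h9 : 3 ^ 2 ∣ q ^ 2 + 3 * q + 3 :=
      (Nat.Prime.pow_dvd_iff_le_factorization Nat.prime_three (by positivity)).2 h
    have h10 : (q ^ 2 + 3 * q + 3) % 9 = 0 := Nat.mod_eq_zero_of_dvd h9
    have h11 : q % 9 < 9 := Nat.mod_lt _ (by norm_num)
    rw [Nat.add_mod, Nat.add_mod (q ^ 2), Nat.pow_mod, Nat.mul_mod] at h10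
    interval_cases hq : q % 9 <;> simp_all
  have f3 : (q * (q + 2)).factorization 3 < j := by
    by_contra h
    push Not at h
    apply hj
    rw [Nat.add_sub_cancel]
    exact (Nat.Prime.pow_dvd_iff_le_factorization Nat.prime_three (by positivity)).2 h
  rw [e1, e2, e3]
  rw [Nat.factorization_mul (by positivity) (by positivity), Finsupp.add_apply,
    Nat.factorization_mul (by positivity) (by positivity), Finsupp.add_apply,
    Nat.factorization_mul (by positivity) (by positivity), Finsupp.add_apply,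
    Nat.factorization_mul (a := q + 1) (by positivity) (by positivity), Finsupp.add_apply,
    Nat.factorization_mul (a := (q + 1) ^ 2) (by positivity) (by positivity), Finsupp.add_apply,
    Nat.factorization_pow, Finsupp.smul_apply, f1]
  rw [Nat.factorization_mul (by positivity) (by positivity), Finsupp.add_apply] at f3 ⊢
  simp only [smul_eq_mul]
  omega

open ModAux in
theorem trace_conv (a b c : ℤ) (x y z : ℂ) (h : Rts a b c x y z) (k : ℕ) :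
    (3 : ℤ) ^ (k + 1) ∣ S a b c (3 ^ (k + 1)) - S a b c (3 ^ k) := by
  rw [E_S a b c x y z h, E_S a b c x y z h]
  have key : ∀ (j : ℕ) (v w : ℤ × ℤ × ℤ), ((3 : ℤ) ^ (j + 1) ∣ v.1 - w.1 ∧
      (3 : ℤ) ^ (j + 1) ∣ v.2.1 - w.2.1 ∧ (3 : ℤ) ^ (j + 1) ∣ v.2.2 - w.2.2) →
      ((3 : ℤ) ^ (j + 2) ∣ (F v).1 - (F w).1 ∧
      (3 : ℤ) ^ (j + 2) ∣ (F v).2.1 - (F w).2.1 ∧ (3 : ℤ) ^ (j + 2) ∣ (F v).2.2 - (F w).2.2) := by
    rintro j ⟨v1, v2, v3⟩ ⟨w1, w2, w3⟩ ⟨⟨r1, h1⟩, ⟨r2, h2⟩, ⟨r3, h3⟩⟩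
    simp only at h1 h2 h3
    obtain rfl : v1 = w1 + 3 ^ (j + 1) * r1 := by linarith
    obtain rfl : v2 = w2 + 3 ^ (j + 1) * r2 := by linarith
    obtain rfl : v3 = w3 + 3 ^ (j + 1) * r3 := by linarith
    refine ⟨?_, ?_, ?_⟩
    · simp only [F]
      refine ⟨w1 ^ 2 * r1 + w1 * 3 ^ (j + 1) * r1 ^ 2 + 3 ^ j * 3 ^ j * 3 * r1 ^ 3
        - (w1 * r2 + w2 * r1 + 3 ^ (j + 1) * r1 * r2) + r3, ?_⟩
      ring
    · simp only [F]
      refine ⟨w2 ^ 2 * r2 + w2 * 3 ^ (j + 1) * r2 ^ 2 + 3 ^ j * 3 ^ j * 3 * r2 ^ 3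
        - ((w1 + 3 ^ (j + 1) * r1) * (w2 + 3 ^ (j + 1) * r2) * r3 +
          (w1 + 3 ^ (j + 1) * r1) * r2 * w3 + r1 * w2 * w3) +
          (2 * w3 * r3 + 3 ^ (j + 1) * r3 ^ 2), ?_⟩
      ring
    · simp only [F]
      refine ⟨w3 ^ 2 * r3 + w3 * 3 ^ (j + 1) * r3 ^ 2 + 3 ^ j * 3 ^ j * 3 * r3 ^ 3, ?_⟩
      ring
  have h3 : ∀ t : ℤ, (3 : ℤ) ^ (0 + 1) ∣ t ^ 3 - t := by
    intro t
    have h1 : ((t ^ 3 - t : ℤ) : ZMod 3) = 0 := by
      push_cast
      have : ∀ s : ZMod 3, s ^ 3 - s = 0 := by decide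
      exact this _
    have := (ZMod.intCast_zmod_eq_zero_iff_dvd _ 3).1 h1
    simpa using this
  have main : ∀ k : ℕ, ((3 : ℤ) ^ (k + 1) ∣ (E a b c (k + 1)).1 - (E a b c k).1 ∧
      (3 : ℤ) ^ (k + 1) ∣ (E a b c (k + 1)).2.1 - (E a b c k).2.1 ∧
      (3 : ℤ) ^ (k + 1) ∣ (E a b c (k + 1)).2.2 - (E a b c k).2.2) := by
    intro k
    induction k with
    | zero =>
      refine ⟨?_, ?_, ?_⟩
      · show (3 : ℤ) ^ (0 + 1) ∣ (a ^ 3 - 3 * a * b + 3 * c) - a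
        have h1 : (a ^ 3 - 3 * a * b + 3 * c) - a = (a ^ 3 - a) + 3 ^ (0 + 1) * (c - a * b) := by
          ring
        rw [h1]
        exact dvd_add (h3 a) (dvd_mul_right _ _)
      · show (3 : ℤ) ^ (0 + 1) ∣ (b ^ 3 - 3 * a * b * c + 3 * c ^ 2) - b
        have h1 : (b ^ 3 - 3 * a * b * c + 3 * c ^ 2) - b =
            (b ^ 3 - b) + 3 ^ (0 + 1) * (c ^ 2 - a * b * c) := by
          ring
        rw [h1]
        exact dvd_add (h3 b) (dvd_mul_right _ _)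
      · show (3 : ℤ) ^ (0 + 1) ∣ c ^ 3 - c
        exact h3 c
    | succ k ih => exact key k _ _ ih
  exact (main k).1

end Pool.Agent.T6.H51.MI
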