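import Mathlib
import Pool.Agent.T6.H51.MI.Defs
import Pool.Agent.T6.H51.MI.GLJ

/-!
# Mills numbers and cubic Pisot numbers: the totally real case
-/

set_option autoImplicit false

namespace Pool.Agent.T6.H51.MI

theorem real_case {A : ℝ} (hA0 : 0 < A)
    (hp : ∀ n : ℕ, 1 ≤ n → Nat.Prime ⌊A ^ 3 ^ n⌋₊) (m : ℕ) (a b c : ℤ) (hc0 : c ≠ 0) (β γ : ℝ)
    (hR : Rts a b c ((A ^ 3 ^ m : ℝ) : ℂ) (β : ℂ) (γ : ℂ)) (hb : |β| < 1) (hg : |γ| < 1) :
    ∃ δ : ℤ, (δ = 1 ∨ δ = -1) ∧ ∀ k : ℕ,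
      (3 : ℤ) ^ (k + 1) ∣ S a b c (3 ^ k) - δ - (if 0 < β + γ then 1 else 0) := by
  classical
  have hA1 : 1 < A := by
    by_contra hle
    push Not at hle
    have h1 : A ^ 3 ^ 1 ≤ 1 := pow_le_one₀ hA0.le hle
    have h2 : ⌊A ^ 3 ^ 1⌋₊ ≤ 1 := by
      have := Nat.floor_mono h1
      simpa using this
    have h4 := (hp 1 le_rfl).two_le
    omega
  set α : ℝ := A ^ 3 ^ m with hα
  have hα1 : 1 < α := one_lt_pow₀ hA1 (by positivity)
  obtain ⟨p, hpdef⟩ : ∃ p : ℕ → ℕ, ∀ k, p k = ⌊α ^ 3 ^ k⌋₊ := ⟨_, fun _ => rfl⟩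
  have hprime : ∀ k, 1 ≤ k → (p k).Prime := by
    intro k hk
    have h1 : α ^ 3 ^ k = A ^ 3 ^ (m + k) := by
      rw [hα, ← pow_mul, ← pow_add]
    rw [hpdef, h1]
    exact hp _ (by omega)
  have hpos : ∀ k, 0 < α ^ 3 ^ k := fun k => by positivity
  have hple : ∀ k, (p k : ℝ) ≤ α ^ 3 ^ k := by
    intro k
    rw [hpdef]
    exact Nat.floor_le (hpos k).le
  have hplt : ∀ k, α ^ 3 ^ k < (p k : ℝ) + 1 := by
    intro k
    rw [hpdef]
    exact Nat.lt_floor_add_one _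
  have hsr : ∀ n : ℕ, (S a b c n : ℝ) = α ^ n + (β ^ n + γ ^ n) := by
    intro n
    have h1 := ModAux.S_pow a b c _ _ _ hR n
    have h2 : ((S a b c n : ℝ) : ℂ) = ((α ^ n + (β ^ n + γ ^ n) : ℝ) : ℂ) := by
      push_cast
      rw [h1]
      push_cast
      ring
    exact_mod_cast h2
  -- sign
  set e : ℤ := if 0 < β + γ then 1 else 0 with he
  have hsign : ∀ k : ℕ, 0 < β ^ 3 ^ k + γ ^ 3 ^ k ↔ 0 < β + γ := by
    intro k
    have hodd : Odd (3 ^ k) := Odd.pow (by decide)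
    have h1 := hodd.strictMono_pow (R := ℝ)
    have h2 : (-γ) ^ 3 ^ k = -(γ ^ 3 ^ k) := hodd.neg_pow γ
    have h3 : (-γ) ^ 3 ^ k < β ^ 3 ^ k ↔ -γ < β := h1.lt_iff_lt
    rw [h2] at h3
    constructor
    · intro h
      have := h3.1 (by linarith)
      linarith
    · intro h
      have := h3.2 (by linarith)
      linarith
  obtain ⟨K0, hK0⟩ : ∃ K0 : ℕ, ∀ n, K0 ≤ n → |β| ^ n < 1 / 2 ∧ |γ| ^ n < 1 / 2 := by
    have h1 := tendsto_pow_atTop_nhds_zero_of_lt_one (abs_nonneg β) hb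
    have h2 := h1.eventually (gt_mem_nhds (by norm_num : (0 : ℝ) < 1 / 2))
    have h3 := tendsto_pow_atTop_nhds_zero_of_lt_one (abs_nonneg γ) hg
    have h4 := h3.eventually (gt_mem_nhds (by norm_num : (0 : ℝ) < 1 / 2))
    have h5 := h2.and h4
    rw [Filter.eventually_atTop] at h5
    exact h5
  obtain ⟨K1, hK1⟩ : ∃ K1 : ℕ, ∀ n, K1 ≤ n → (c.natAbs : ℝ) + 20 < α ^ n := by
    have h1 := tendsto_pow_atTop_atTop_of_one_lt hα1
    have h2 := h1.eventually (Filter.eventually_gt_atTop ((c.natAbs : ℝ) + 20))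
    rw [Filter.eventually_atTop] at h2
    exact h2
  set K := max (max K0 K1) 4 with hK
  have hK0' : K0 ≤ K := le_trans (le_max_left _ _) (le_max_left _ _)
  have hK1' : K1 ≤ K := le_trans (le_max_right _ _) (le_max_left _ _)
  have hK4 : 4 ≤ K := le_max_right _ _
  have hpow : ∀ k : ℕ, k ≤ 3 ^ k := fun k => (Nat.lt_pow_self (by norm_num)).le
  have hbig : ∀ k, K ≤ k → c.natAbs + 19 < p k := by
    intro k hk
    have h1 := hK1 (3 ^ k) (le_trans hK1' (le_trans hk (hpow k)))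
    have h2 := hplt k
    have h4 : ((c.natAbs + 19 : ℕ) : ℝ) < (p k : ℝ) := by
      push_cast
      linarith
    exact_mod_cast h4
  have hval : ∀ k, K ≤ k → S a b c (3 ^ k) = (p k : ℤ) + e := by
    intro k hk
    obtain ⟨h1, h1'⟩ := hK0 (3 ^ k) (le_trans hK0' (le_trans hk (hpow k)))
    have h2 : |β ^ 3 ^ k| < 1 / 2 := by rwa [abs_pow]
    have h2' : |γ ^ 3 ^ k| < 1 / 2 := by rwa [abs_pow]
    rw [abs_lt] at h2 h2'
    have h4 := hsr (3 ^ k)
    have h5 := hple k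
    have h6 := hplt k
    have h7 := hsign k
    rw [he]
    split_ifs with h8
    · have h9 := h7.2 h8
      have h10 : ((p k : ℤ) : ℝ) < (S a b c (3 ^ k) : ℝ) := by
        rw [h4]
        push_cast
        linarith
      have h11 : (S a b c (3 ^ k) : ℝ) < (((p k : ℤ) + 2 : ℤ) : ℝ) := by
        rw [h4]
        push_cast
        linarith
      have h12 : (p k : ℤ) < S a b c (3 ^ k) := by exact_mod_cast h10
      have h13 : S a b c (3 ^ k) < (p k : ℤ) + 2 := by exact_mod_cast h11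
      omega
    · have h9 : β ^ 3 ^ k + γ ^ 3 ^ k ≤ 0 := by
        by_contra h
        push Not at h
        exact h8 (h7.1 h)
      have h10 : (((p k : ℤ) - 1 : ℤ) : ℝ) < (S a b c (3 ^ k) : ℝ) := by
        rw [h4]
        push_cast
        linarith
      have h11 : (S a b c (3 ^ k) : ℝ) < (((p k : ℤ) + 1 : ℤ) : ℝ) := by
        rw [h4]
        push_cast
        linarith
      have h12 : (p k : ℤ) - 1 < S a b c (3 ^ k) := by exact_mod_cast h10
      have h13 : S a b c (3 ^ k) < (p k : ℤ) + 1 := by exact_mod_cast h11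
      omega
  have hmod : ∀ j N : ℕ, K ≤ N → 3 * j ≤ N → 3 ^ j ∣ (p N - 1) * (p N + 1) := by
    intro j N hN hjN
    by_contra hcon
    have hb := hbig N hN
    have hpN := hprime N (by omega)
    have hnc : ¬ ((p N : ℕ) : ℤ) ∣ c := by
      intro hd
      have h1 := Int.natAbs_dvd_natAbs.2 hd
      rw [Int.natAbs_natCast] at h1
      have h2 := Nat.le_of_dvd (Int.natAbs_pos.2 hc0) h1
      omega
    obtain ⟨T, hT, hdvd⟩ := glp_core a b c (p N) hpN hnc N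
      ((fac_bound hpN (by omega) j hcon).trans hjN)
    rw [hval N hN, hval (N + 2 * T) (by omega)] at hdvd
    have h1 : ((p N : ℕ) : ℤ) ∣ ((p (N + 2 * T) : ℕ) : ℤ) := by
      have h2 : ((p (N + 2 * T) : ℕ) : ℤ) =
          ((p (N + 2 * T) : ℤ) + e - ((p N : ℤ) + e)) + (p N : ℤ) := by ring
      rw [h2]
      exact dvd_add hdvd dvd_rfl
    have h2 : p N ∣ p (N + 2 * T) := Int.natCast_dvd_natCast.1 h1
    have hpT := hprime (N + 2 * T) (by omega)
    have h4 : p N = p (N + 2 * T) := (Nat.prime_dvd_prime_iff_eq hpN hpT).1 h2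
    have h5 := hplt (N + 2 * T)
    rw [← h4] at h5
    have h6 : α ^ 3 ^ (N + 2 * T) = (α ^ 3 ^ N) ^ 3 ^ (2 * T) := by
      rw [pow_add 3 N (2 * T), pow_mul α]
    have h7 : (1 : ℝ) ≤ α ^ 3 ^ N := one_le_pow₀ hα1.le
    have h8 : (α ^ 3 ^ N) ^ 2 ≤ (α ^ 3 ^ N) ^ 3 ^ (2 * T) := by
      apply pow_le_pow_right₀ h7
      have : 2 * T ≤ 3 ^ (2 * T) := hpow _
      omega
    have h9 := hple N
    have h10 : (20 : ℝ) ≤ (p N : ℝ) := by
      have : 20 ≤ p N := by omega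
      exact_mod_cast this
    rw [h6] at h5
    nlinarith
  -- the sign modulo powers of 3
  have hsg : ∀ j N : ℕ, K ≤ N → 3 * j ≤ N →
      ∃ δ : ℤ, (δ = 1 ∨ δ = -1) ∧ (3 : ℤ) ^ j ∣ S a b c (3 ^ N) - δ - e := by
    intro j N hN hjN
    have h1 := hmod j N hN hjN
    have hb := hbig N hN
    have h2 : ((3 : ℤ) ^ j) ∣ ((p N : ℤ) - 1) * ((p N : ℤ) + 1) := by
      have h3 := Int.natCast_dvd_natCast.2 h1
      push_cast [Nat.cast_sub (by omega : 1 ≤ p N)] at h3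
      exact h3
    rw [hval N hN]
    by_cases h3 : (3 : ℤ) ∣ (p N : ℤ) - 1
    · have h4 : ¬ (3 : ℤ) ∣ (p N : ℤ) + 1 := by omega
      have h5 : IsCoprime ((3 : ℤ) ^ j) ((p N : ℤ) + 1) := by
        apply IsCoprime.pow_left
        exact (Int.prime_three.coprime_iff_not_dvd).2 h4
      refine ⟨1, Or.inl rfl, ?_⟩
      have h6 := h5.dvd_of_dvd_mul_right h2
      have h7 : (p N : ℤ) + e - 1 - e = (p N : ℤ) - 1 := by ring
      rw [h7]
      exact h6
    · have h5 : IsCoprime ((3 : ℤ) ^ j) ((p N : ℤ) - 1) := by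
        apply IsCoprime.pow_left
        exact (Int.prime_three.coprime_iff_not_dvd).2 h3
      refine ⟨-1, Or.inr rfl, ?_⟩
      have h6 := h5.dvd_of_dvd_mul_left h2
      have h7 : (p N : ℤ) + e - -1 - e = (p N : ℤ) + 1 := by ring
      rw [h7]
      exact h6
  have hconv : ∀ k N : ℕ, k ≤ N → (3 : ℤ) ^ (k + 1) ∣ S a b c (3 ^ N) - S a b c (3 ^ k) := by
    intro k N hkN
    obtain ⟨d, rfl⟩ := Nat.exists_eq_add_of_le hkN
    induction d with
    | zero => simp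
    | succ d ih =>
      have h1 := trace_conv a b c _ _ _ hR (k + d)
      have h2 := ih (by omega)
      have h3 : (3 : ℤ) ^ (k + 1) ∣ S a b c (3 ^ (k + d + 1)) - S a b c (3 ^ (k + d)) :=
        dvd_trans (pow_dvd_pow 3 (by omega)) h1
      have h4 := dvd_add h3 h2
      have h5 : S a b c (3 ^ (k + d + 1)) - S a b c (3 ^ (k + d)) +
          (S a b c (3 ^ (k + d)) - S a b c (3 ^ k)) =
          S a b c (3 ^ (k + (d + 1))) - S a b c (3 ^ k) := by
        rw [← add_assoc]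
        ring
      rw [h5] at h4
      exact h4
  have hk : ∀ k : ℕ, ∃ δ : ℤ, (δ = 1 ∨ δ = -1) ∧ (3 : ℤ) ^ (k + 1) ∣ S a b c (3 ^ k) - δ - e := by
    intro k
    set N := K + 3 * (k + 1) with hN
    obtain ⟨δ, h1, h2⟩ := hsg (k + 1) N (by omega) (by omega)
    refine ⟨δ, h1, ?_⟩
    have h3 := hconv k N (by omega)
    have h4 := dvd_sub h2 h3
    have h5 : S a b c (3 ^ N) - δ - e - (S a b c (3 ^ N) - S a b c (3 ^ k)) =
        S a b c (3 ^ k) - δ - e := by ring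
    rw [h5] at h4
    exact h4
  obtain ⟨δ, h1, h2⟩ := hk 0
  refine ⟨δ, h1, fun k => ?_⟩
  obtain ⟨δ', h3, h4⟩ := hk k
  have h5 : (3 : ℤ) ∣ S a b c (3 ^ k) - δ' - e :=
    dvd_trans (dvd_pow_self 3 (by omega)) h4
  have h6 : (3 : ℤ) ∣ S a b c (3 ^ k) - S a b c (3 ^ 0) := by
    have := hconv 0 k (by omega)
    simpa using this
  have h7 : (3 : ℤ) ∣ S a b c (3 ^ 0) - δ - e := by simpa using h2
  have h8 : δ' = δ := by
    rcases h1 with h | h <;> rcases h3 with h' | h' <;> rw [h] at h7 ⊢ <;> rw [h'] at h5 ⊢ <;> omega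
  rw [h8] at h4
  exact h4

end Pool.Agent.T6.H51.MI
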