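import Mathlib
import Pool.Agent.T6.H51.MI.Defs

/-! # Project MI (MP_2c63aa_nt), module SGN: signs of the real parts -/

set_option autoImplicit false

open Polynomial

namespace Pool.Agent.T6.H51.MI

namespace ModSGN

/-- cubing the roots -/
theorem rts_cube {p q r : ℤ} {x y z : ℂ} (h : Rts p q r x y z) :
    Rts (p ^ 3 - 3 * p * q + 3 * r) (q ^ 3 - 3 * p * q * r + 3 * r ^ 2) (r ^ 3)
      (x ^ 3) (y ^ 3) (z ^ 3) := by
  obtain ⟨h1, h2, h3⟩ := h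
  refine ⟨?_, ?_, ?_⟩
  · push_cast
    rw [h1, h2, h3]
    ring
  · push_cast
    rw [h1, h2, h3]
    ring
  · push_cast
    rw [h3]
    ring

/-- integers at each level -/
theorem ints {a b c : ℤ} {α : ℝ} {β : ℂ} (h : Rts a b c (α : ℂ) β ((starRingEnd ℂ) β)) (k : ℕ) :
    ∃ p q r : ℤ, Rts p q r ((α ^ 3 ^ k : ℝ) : ℂ) (β ^ 3 ^ k) ((starRingEnd ℂ) (β ^ 3 ^ k)) := by
  induction k with
  | zero => exact ⟨a, b, c, by simpa using h⟩
  | succ k ih =>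
    obtain ⟨p, q, r, hk⟩ := ih
    refine ⟨p ^ 3 - 3 * p * q + 3 * r, q ^ 3 - 3 * p * q * r + 3 * r ^ 2, r ^ 3, ?_⟩
    have h1 := rts_cube hk
    have e1 : (((α ^ 3 ^ (k + 1) : ℝ)) : ℂ) = ((α ^ 3 ^ k : ℝ) : ℂ) ^ 3 := by
      push_cast
      rw [← pow_mul, pow_succ]
    have e2 : β ^ 3 ^ (k + 1) = (β ^ 3 ^ k) ^ 3 := by
      rw [← pow_mul, pow_succ]
    rw [e1, e2, map_pow]
    exact h1

/-- real form -/
theorem real_form {p q r : ℤ} {A : ℝ} {w : ℂ} (h : Rts p q r (A : ℂ) w ((starRingEnd ℂ) w)) :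
    (p : ℝ) = A + 2 * w.re ∧ (q : ℝ) = w.re ^ 2 + w.im ^ 2 + 2 * w.re * A ∧
      (r : ℝ) = (w.re ^ 2 + w.im ^ 2) * A := by
  obtain ⟨h1, h2, h3⟩ := h
  have g1 := congrArg Complex.re h1
  have g2 := congrArg Complex.re h2
  have g3 := congrArg Complex.re h3
  simp at g1 g2 g3
  refine ⟨?_, ?_, ?_⟩
  · rw [g1]
    ring
  · rw [g2]
    ring
  · rw [g3]
    ring

/-- cube of a complex number: real part -/
theorem re_cube (w : ℂ) : (w ^ 3).re = w.re ^ 3 - 3 * w.re * w.im ^ 2 := by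
  simp [pow_succ, Complex.mul_re, Complex.mul_im]
  ring

/-- cube of a complex number: imaginary part -/
theorem im_cube (w : ℂ) : (w ^ 3).im = 3 * w.re ^ 2 * w.im - w.im ^ 3 := by
  simp [pow_succ, Complex.mul_re, Complex.mul_im]
  ring

/-- a rational root of a monic integral cubic in `(-1, 1)` is zero -/
theorem rat_root {p q r : ℤ} {t : ℚ} (h : t ^ 3 - p * t ^ 2 + q * t - r = 0) (h1 : |t| < 1) :
    t = 0 := by
  have hm : (X ^ 3 - C p * X ^ 2 + C q * X - C r : ℤ[X]).Monic := by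
    monicity!
  have hr : aeval t (X ^ 3 - C p * X ^ 2 + C q * X - C r : ℤ[X]) = 0 := by
    simp
    linarith
  obtain ⟨n, hn⟩ := isInteger_of_is_root_of_monic hm hr
  have hn' : (n : ℚ) = t := by simpa using hn
  rw [← hn'] at h1 ⊢
  have h2 : |n| < 1 := by exact_mod_cast h1
  rw [Int.abs_lt_one_iff] at h2
  simp [h2]

/-- the core: if the real parts do not change sign from `K` on, then contradiction -/
theorem core {a b c : ℤ} {α : ℝ} {β : ℂ} (hα : 1 < α) (hi : β.im ≠ 0) (hb : ‖β‖ < 1)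
    (h : Rts a b c (α : ℂ) β ((starRingEnd ℂ) β)) (K : ℕ)
    (hs : ∀ k, K ≤ k → 0 < (β ^ 3 ^ k).re * (β ^ 3 ^ (k + 1)).re) : False := by
  have hβ : β ≠ 0 := by
    rintro rfl
    simp at hi
  have hD : ∀ k, 0 < (β ^ 3 ^ k).re ^ 2 + (β ^ 3 ^ k).im ^ 2 := by
    intro k
    have h1 : 0 < Complex.normSq (β ^ 3 ^ k) := Complex.normSq_pos.2 (pow_ne_zero _ hβ)
    rw [Complex.normSq_apply] at h1
    nlinarith
  have hsucc : ∀ k, β ^ 3 ^ (k + 1) = (β ^ 3 ^ k) ^ 3 := by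
    intro k
    rw [← pow_mul, pow_succ]
  have hx : ∀ k, K ≤ k → 3 * (β ^ 3 ^ k).im ^ 2 < (β ^ 3 ^ k).re ^ 2 := by
    intro k hk
    have h1 := hs k hk
    rw [hsucc, re_cube] at h1
    set x := (β ^ 3 ^ k).re
    set y := (β ^ 3 ^ k).im
    have h2 : 0 < x ^ 2 * (x ^ 2 - 3 * y ^ 2) := by
      calc 0 < x * (x ^ 3 - 3 * x * y ^ 2) := h1
        _ = x ^ 2 * (x ^ 2 - 3 * y ^ 2) := by ring
    have h3 : 0 < x ^ 2 - 3 * y ^ 2 := by
      by_contra hc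
      exact absurd h2 (not_lt.2 (mul_nonpos_of_nonneg_of_nonpos (sq_nonneg x) (not_lt.1 hc)))
    linarith
  -- growth of the sine
  have hg : ∀ n : ℕ, 4 ^ n * ((β ^ 3 ^ K).im ^ 2 / ((β ^ 3 ^ K).re ^ 2 + (β ^ 3 ^ K).im ^ 2)) ≤
      (β ^ 3 ^ (K + n)).im ^ 2 / ((β ^ 3 ^ (K + n)).re ^ 2 + (β ^ 3 ^ (K + n)).im ^ 2) := by
    intro n
    induction n with
    | zero => simp
    | succ n ih =>
      have h1 := hx (K + n) (by omega)
      have h2 := hD (K + n)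
      have h3 := hD (K + (n + 1))
      rw [show K + (n + 1) = K + n + 1 by ring, hsucc, re_cube, im_cube] at h3 ⊢
      set x := (β ^ 3 ^ (K + n)).re
      set y := (β ^ 3 ^ (K + n)).im
      have h4 : 4 * (y ^ 2 / (x ^ 2 + y ^ 2)) ≤ (3 * x ^ 2 * y - y ^ 3) ^ 2 /
          ((x ^ 3 - 3 * x * y ^ 2) ^ 2 + (3 * x ^ 2 * y - y ^ 3) ^ 2) := by
        have e : (x ^ 3 - 3 * x * y ^ 2) ^ 2 + (3 * x ^ 2 * y - y ^ 3) ^ 2
            = (x ^ 2 + y ^ 2) ^ 3 := by ring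
        rw [e, ← mul_div_assoc, div_le_div_iff₀ h2 (by positivity)]
        have h5 : 2 * (x ^ 2 + y ^ 2) ≤ 3 * x ^ 2 - y ^ 2 := by linarith
        have h6 : (2 * (x ^ 2 + y ^ 2)) ^ 2 ≤ (3 * x ^ 2 - y ^ 2) ^ 2 :=
          pow_le_pow_left₀ (by positivity) h5 2
        have h7 : y ^ 2 * (x ^ 2 + y ^ 2) * (2 * (x ^ 2 + y ^ 2)) ^ 2 ≤
            y ^ 2 * (x ^ 2 + y ^ 2) * (3 * x ^ 2 - y ^ 2) ^ 2 :=
          mul_le_mul_of_nonneg_left h6 (by positivity)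
        calc 4 * y ^ 2 * (x ^ 2 + y ^ 2) ^ 3
            = y ^ 2 * (x ^ 2 + y ^ 2) * (2 * (x ^ 2 + y ^ 2)) ^ 2 := by ring
          _ ≤ y ^ 2 * (x ^ 2 + y ^ 2) * (3 * x ^ 2 - y ^ 2) ^ 2 := h7
          _ = (3 * x ^ 2 * y - y ^ 3) ^ 2 * (x ^ 2 + y ^ 2) := by ring
      refine le_trans ?_ h4
      rw [pow_succ]
      linarith
  have hy : (β ^ 3 ^ K).im = 0 := by
    by_contra hne
    have h1 : 0 < (β ^ 3 ^ K).im ^ 2 / ((β ^ 3 ^ K).re ^ 2 + (β ^ 3 ^ K).im ^ 2) :=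
      div_pos (by positivity) (hD K)
    obtain ⟨n, hn⟩ := pow_unbounded_of_one_lt
      (1 / ((β ^ 3 ^ K).im ^ 2 / ((β ^ 3 ^ K).re ^ 2 + (β ^ 3 ^ K).im ^ 2)))
      (by norm_num : (1 : ℝ) < 4)
    rw [div_lt_iff₀ h1] at hn
    have h2 := hg n
    have h3 : (β ^ 3 ^ (K + n)).im ^ 2 /
        ((β ^ 3 ^ (K + n)).re ^ 2 + (β ^ 3 ^ (K + n)).im ^ 2) ≤ 1 := by
      rw [div_le_one (hD _)]
      nlinarith [sq_nonneg (β ^ 3 ^ (K + n)).re]
    linarith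
  obtain ⟨p, q, r, hpqr⟩ := ints h K
  obtain ⟨e1, e2, e3⟩ := real_form hpqr
  have hA : 1 < α ^ 3 ^ K := one_lt_pow₀ hα (by positivity)
  have hD' := hD K
  have hn : ‖β ^ 3 ^ K‖ < 1 := by
    rw [norm_pow]
    exact pow_lt_one₀ (norm_nonneg _) hb (by positivity)
  have hr1 : |(β ^ 3 ^ K).re| < 1 := (Complex.abs_re_le_norm _).trans_lt hn
  rw [hy] at e2 e3 hD'
  generalize (β ^ 3 ^ K).re = x at *
  generalize α ^ 3 ^ K = A at *
  have hxA : 0 < (A - x) ^ 2 := by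
    have : 0 < A - x := by linarith [(abs_lt.1 hr1).2]
    positivity
  have f1 : ((p : ℝ) ^ 2 - 3 * q) = (A - x) ^ 2 := by
    rw [e1, e2]
    ring
  have f2 : ((p : ℝ) * q - 9 * r) = 2 * x * (A - x) ^ 2 := by
    rw [e1, e2, e3]
    ring
  have f3 : x = ((((p * q - 9 * r : ℤ) : ℚ) / ((2 * (p ^ 2 - 3 * q) : ℤ) : ℚ) : ℚ) : ℝ) := by
    push_cast
    rw [eq_div_iff (by rw [f1]; positivity), f1, f2]
    ring
  have f4 : x ^ 3 - p * x ^ 2 + q * x - r = 0 := by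
    rw [e1, e2, e3]
    ring
  obtain ⟨t, ht⟩ : ∃ t : ℚ, x = (t : ℝ) := ⟨_, f3⟩
  rw [ht] at f4 hr1 hD'
  have g4 : t ^ 3 - p * t ^ 2 + q * t - r = 0 := by exact_mod_cast f4
  have g5 : |t| < 1 := by exact_mod_cast hr1
  have g6 := rat_root g4 g5
  rw [g6] at hD'
  simp at hD'

end ModSGN

/-- SGN -/
theorem sgn : StmSGN := by
  intro a b c α β hα hi hb h K
  have hβ : β ≠ 0 := by
    rintro rfl
    simp at hi
  -- no real part is zero
  have hne : ∀ k, (β ^ 3 ^ k).re ≠ 0 := by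
    intro k h0
    obtain ⟨p, q, r, hpqr⟩ := ModSGN.ints h k
    obtain ⟨-, e2, -⟩ := ModSGN.real_form hpqr
    rw [h0] at e2
    have hn : ‖β ^ 3 ^ k‖ < 1 := by
      rw [norm_pow]
      exact pow_lt_one₀ (norm_nonneg _) hb (by positivity)
    have hi1 : |(β ^ 3 ^ k).im| < 1 := (Complex.abs_im_le_norm _).trans_lt hn
    have h1 : (β ^ 3 ^ k).im ≠ 0 := by
      intro h2
      exact pow_ne_zero (3 ^ k) hβ (Complex.ext h0 h2)
    have h2 : 0 < (β ^ 3 ^ k).im ^ 2 := by positivity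
    have h3 : (β ^ 3 ^ k).im ^ 2 < 1 := (sq_lt_one_iff_abs_lt_one _).2 hi1
    have h4 : (0 : ℝ) < q := by
      rw [e2]
      linarith
    have h5 : (q : ℝ) < 1 := by
      rw [e2]
      linarith
    have h6 : 0 < q := by exact_mod_cast h4
    have h7 : q < 1 := by exact_mod_cast h5
    omega
  constructor
  · intro hs
    exact ModSGN.core hα hi hb h K fun k hk => mul_pos (hs k hk) (hs (k + 1) (by omega))
  · intro hs
    refine ModSGN.core hα hi hb h K fun k hk => mul_pos_of_neg_of_neg ?_ ?_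
    · exact lt_of_le_of_ne (hs k hk) (hne k)
    · exact lt_of_le_of_ne (hs (k + 1) (by omega)) (hne (k + 1))

end Pool.Agent.T6.H51.MI
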