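import Pool.Agent.T6.H51.MI.Defs

/-!
# Mills numbers and cubic Pisot numbers (MP_2c63aa_nt): module ALG
-/

set_option autoImplicit false

open Polynomial

namespace Pool.Agent.T6.H51.MI

theorem alg : StmALG := by
  intro P hmon hdeg α β hβ hα hβ0
  have hlead : P.coeff 3 = 1 := by
    have := hmon.coeff_natDegree
    rwa [hdeg] at this
  have hα1 : (P.coeff 0 : ℝ) + (P.coeff 1 : ℝ) * α + (P.coeff 2 : ℝ) * α ^ 2 + α ^ 3 = 0 := by
    rw [aeval_eq_sum_range, hdeg] at hα
    simp only [Finset.sum_range_succ, Finset.sum_range_zero, zsmul_eq_mul, hlead] at hα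
    push_cast at hα
    linarith
  have hβ1 : (P.coeff 0 : ℂ) + (P.coeff 1 : ℂ) * β + (P.coeff 2 : ℂ) * β ^ 2 + β ^ 3 = 0 := by
    rw [aeval_eq_sum_range, hdeg] at hβ0
    simp only [Finset.sum_range_succ, Finset.sum_range_zero, zsmul_eq_mul, hlead] at hβ0
    push_cast at hβ0
    linear_combination hβ0
  generalize P.coeff 0 = p0 at hα1 hβ1
  generalize P.coeff 1 = p1 at hα1 hβ1
  generalize P.coeff 2 = p2 at hα1 hβ1
  obtain ⟨x, y⟩ := β
  have hre := congrArg Complex.re hβ1
  have him := congrArg Complex.im hβ1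
  simp [pow_succ] at hre him
  have hy : y ≠ 0 := hβ
  have him2 : 3 * x ^ 2 - y ^ 2 + 2 * (p2 : ℝ) * x + (p1 : ℝ) = 0 := by
    have : y * (3 * x ^ 2 - y ^ 2 + 2 * (p2 : ℝ) * x + (p1 : ℝ)) = 0 := by
      linarith [him]
    rcases mul_eq_zero.mp this with h | h
    · exact absurd h hy
    · exact h
  have hre2 : (p0 : ℝ) + p1 * x + p2 * (x ^ 2 - y ^ 2) + (x ^ 3 - 3 * x * y ^ 2) = 0 := by
    linarith [hre]
  have hfac : (α - (-(p2 : ℝ) - 2 * x)) * ((α - x) ^ 2 + y ^ 2) = 0 := by
    linear_combination hα1 - hre2 + (x - α) * him2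
  have hpos : 0 < (α - x) ^ 2 + y ^ 2 := by
    have : 0 < y ^ 2 := by positivity
    nlinarith [sq_nonneg (α - x)]
  have hw : α = -(p2 : ℝ) - 2 * x := by
    rcases mul_eq_zero.mp hfac with h | h
    · linarith
    · exact absurd h hpos.ne'
  refine ⟨-p2, p1, -p0, ?_, ?_, ?_⟩
  · apply Complex.ext
    · simp
      linarith
    · simp
  · apply Complex.ext
    · simp
      have hp2 : (p2 : ℝ) = -α - 2 * x := by linarith
      rw [hp2] at him2
      linarith
    · simp
      ring
  · apply Complex.ext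
    · simp
      have hp2 : (p2 : ℝ) = -α - 2 * x := by linarith
      rw [hp2] at him2 hre2
      linear_combination (-1) * hre2 + x * him2
    · simp
      ring

end Pool.Agent.T6.H51.MI
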